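import Pool.Agent.X14.QPair

/-!
# A q-congruence for a truncated `[4k+1]` sum modulo `Φ_n(q)^2`
-/

set_option autoImplicit false

namespace Pool.Agent.Results.MP_b125a4_nt.Truncated

open Finset Polynomial

noncomputable section

/-- The indeterminate `q`, as an element of `ℚ(q)`. -/
def q : RatFunc ℚ := RatFunc.X

/-- The q-integer `[N] = 1 + q + ⋯ + q^{N-1}`. -/
def qint (N : ℕ) : RatFunc ℚ := ∑ i ∈ range N, q ^ i

/-- The q-shifted factorial `(a; x)_k = (1 - a)(1 - a x) ⋯ (1 - a x^{k-1})`. -/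
def qp (a x : RatFunc ℚ) (k : ℕ) : RatFunc ℚ := ∏ j ∈ range k, (1 - a * x ^ j)

/-- The exponent `e_n(k) = k (n^2 - 2nk - n - 2) / 4`. -/
def ex (n k : ℕ) : ℤ := (k : ℤ) * ((n : ℤ) ^ 2 - 2 * n * k - n - 2) / 4

/-- The sum `S_n(q)`. -/
def S (n : ℕ) : RatFunc ℚ :=
  ∑ k ∈ range ((n - 1) / 2 + 1), qint (4 * k + 1) * (qp q (q ^ 2) k / qp (q ^ 2) (q ^ 2) k) ^ 3 * q ^ (ex n k)

/-- `A ≡ 0 (mod Φ^2)`: `A = U / V` with polynomials `U`, `V`, where `V` is coprime to `Φ` and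
`Φ^2` divides `U`. -/
def ZeroSq (Φ : ℚ[X]) (A : RatFunc ℚ) : Prop :=
  ∃ U V : ℚ[X], IsCoprime V Φ ∧ Φ ^ 2 ∣ U ∧
    A = algebraMap ℚ[X] (RatFunc ℚ) U / algebraMap ℚ[X] (RatFunc ℚ) V

open Pool.Agent.X14 QL QBlock

lemma q_def : q = QL.q := rfl

lemma qint_mul (N : ℕ) : qint N * (1 - q) = 1 - q ^ N := by
  unfold qint
  have := geom_sum_mul q N
  linear_combination -this

lemma one_sub_q : 1 - q ≠ 0 := by
  have := one_sub_ne (j := 1) one_pos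
  rwa [pow_one] at this

lemma qp_odd (k : ℕ) : qp q (q ^ 2) k = ∏ j ∈ range k, e (((1 : ℕ) : ℤ) * (2 * (j : ℤ) + 1)) := by
  unfold qp
  apply prod_congr rfl
  intro j _
  rw [show (((1 : ℕ) : ℤ) * (2 * (j : ℤ) + 1)) = ((2 * j + 1 : ℕ) : ℤ) by push_cast; ring, e_nat,
    q_def, ← pow_mul, pow_succ]
  ring

lemma qp_even (k : ℕ) : qp (q ^ 2) (q ^ 2) k = ∏ j ∈ range k, e (((1 : ℕ) : ℤ) * (2 * (j : ℤ) + 2)) := by
  unfold qp
  apply prod_congr rfl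
  intro j _
  rw [show (((1 : ℕ) : ℤ) * (2 * (j : ℤ) + 2)) = ((2 * j + 2 : ℕ) : ℤ) by push_cast; ring, e_nat,
    q_def, ← pow_mul, pow_add]
  ring

lemma rr_eq (k : ℕ) : qp q (q ^ 2) k / qp (q ^ 2) (q ^ 2) k = rr 1 k := by
  rw [qp_odd, qp_even]; unfold rr; rw [prod_div_distrib]

variable {n h : ℕ}

/-- the terms without the power of `q^n` -/
def A (h k : ℕ) : RatFunc ℚ := e (4 * (k : ℤ) + 1) * rr 1 k ^ 3 * QL.q ^ (-((h : ℤ) + 1) * k)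

/-- the deforming factors -/
def xf (h j : ℕ) : RatFunc ℚ := e (2 * (j : ℤ) + h + 2) / e (2 * (j : ℤ) + 1 - h)

/-- their products -/
def XX (h k : ℕ) : RatFunc ℚ := ∏ j ∈ range k, xf h j

lemma e_shift (hn0 : 0 < n) (z : ℤ) : Eqm (cyclotomic n ℚ) 1 (e (z + n)) (e z) := by
  have h1 := QO.mul_left (zmem hn0 z) (e_QO hn0 (dvd_refl (n : ℤ)))
  unfold Eqm
  convert h1 using 1
  unfold e
  rw [zpow_add₀ q_ne]
  ring

lemma shift_U (hn0 : 0 < n) {z : ℤ} (hz : ¬ (n : ℤ) ∣ z) : U (cyclotomic n ℚ) 1 (e (z + n) / e z) := by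
  have h1 := QO.mul_right (e_shift hn0 z) (e_inv hn0 hz)
  have h2 : e z ≠ 0 := e_ne (fun h0 => hz (h0 ▸ dvd_zero _))
  unfold U
  convert h1 using 1
  field_simp

lemma odd_small (hn : n = 2 * h + 1) (hh : h % 2 = 0) {j : ℕ} (hj : j < h) : ¬ (n : ℤ) ∣ 2 * (j : ℤ) + 1 - h := by
  rintro ⟨c, hc⟩
  have h1 : c = 0 := by
    by_contra h0
    rcases lt_or_gt_of_ne h0 with h2 | h2
    · nlinarith
    · nlinarith
  subst h1
  omega

lemma xf_U (hn : n = 2 * h + 1) (hh : h % 2 = 0) {j : ℕ} (hj : j < h) : U (cyclotomic n ℚ) 1 (xf h j) := by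
  have h1 := shift_U (n := n) (by omega) (odd_small hn hh hj)
  unfold xf
  convert h1 using 3
  rw [hn]; push_cast; ring

lemma XX_U (hn : n = 2 * h + 1) (hh : h % 2 = 0) {k : ℕ} (hk : k ≤ h) : U (cyclotomic n ℚ) 1 (XX h k) :=
  U.prod (fun j hj => xf_U hn hh (lt_of_lt_of_le (mem_range.1 hj) hk))

lemma xf_ne (hh : h % 2 = 0) (j : ℕ) : xf h j ≠ 0 :=
  div_ne_zero (e_ne (by omega)) (e_ne (by omega))

lemma XX_ne (hh : h % 2 = 0) (k : ℕ) : XX h k ≠ 0 := by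
  unfold XX; rw [prod_ne_zero_iff]; intro j _; exact xf_ne hh j

lemma bb_plus (hh : h % 2 = 0) (k : ℕ) :
    QL.q ^ (1 * k) * bb 1 (QL.q ^ (-(h : ℤ) - 2)) k = QL.q ^ (-((h : ℤ) + 1) * k) * XX h k := by
  have hq := q_ne
  induction k with
  | zero => simp [bb, XX]
  | succ k ih =>
    have h1 : bb 1 (QL.q ^ (-(h : ℤ) - 2)) (k + 1) = bb 1 (QL.q ^ (-(h : ℤ) - 2)) k *
        ((QL.q ^ (-(h : ℤ) - 2) - QL.q ^ (((1 : ℕ) : ℤ) * (2 * k))) / (1 - QL.q ^ (-(h : ℤ) - 2) * QL.q ^ (((1 : ℕ) : ℤ) * (2 * k + 3)))) := by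
      unfold bb; rw [prod_range_succ]
    have h2 : XX h (k + 1) = XX h k * xf h k := by unfold XX; rw [prod_range_succ]
    have h3 : QL.q ^ (-(h : ℤ) - 2) - QL.q ^ (((1 : ℕ) : ℤ) * (2 * k)) = QL.q ^ (-(h : ℤ) - 2) * e (2 * (k : ℤ) + h + 2) := by
      unfold e
      rw [mul_sub, ← zpow_add₀ hq, mul_one]; congr 2; push_cast; ring
    have h4 : 1 - QL.q ^ (-(h : ℤ) - 2) * QL.q ^ (((1 : ℕ) : ℤ) * (2 * k + 3)) = e (2 * (k : ℤ) + 1 - h) := by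
      unfold e
      rw [← zpow_add₀ hq]; congr 2; push_cast; ring
    have h5 : QL.q ^ (-((h : ℤ) + 1) * ((k + 1 : ℕ) : ℤ)) = QL.q ^ (-((h : ℤ) + 1) * k) * (QL.q ^ 1 * QL.q ^ (-(h : ℤ) - 2)) := by
      rw [← zpow_natCast QL.q 1, ← zpow_add₀ hq, ← zpow_add₀ hq]; congr 1; push_cast; ring
    rw [h1, h2, h3, h4, h5, mul_add, pow_add]
    unfold xf
    linear_combination (QL.q ^ (1 * 1) * (QL.q ^ (-(h : ℤ) - 2) * e (2 * (k : ℤ) + h + 2) / e (2 * (k : ℤ) + 1 - h))) * ih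

lemma bb_minus (hn : n = 2 * h + 1) (hh : h % 2 = 0) (k : ℕ) :
    QL.q ^ (1 * k) * bb 1 (QL.q ^ ((h : ℤ) - 1)) k = QL.q ^ (-((h : ℤ) + 1) * k) * (QL.q ^ ((n : ℤ) * k) * (XX h k)⁻¹) := by
  have hq := q_ne
  induction k with
  | zero => simp [bb, XX]
  | succ k ih =>
    have h1 : bb 1 (QL.q ^ ((h : ℤ) - 1)) (k + 1) = bb 1 (QL.q ^ ((h : ℤ) - 1)) k *
        ((QL.q ^ ((h : ℤ) - 1) - QL.q ^ (((1 : ℕ) : ℤ) * (2 * k))) / (1 - QL.q ^ ((h : ℤ) - 1) * QL.q ^ (((1 : ℕ) : ℤ) * (2 * k + 3)))) := by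
      unfold bb; rw [prod_range_succ]
    have h2 : XX h (k + 1) = XX h k * xf h k := by unfold XX; rw [prod_range_succ]
    have h3 : QL.q ^ ((h : ℤ) - 1) - QL.q ^ (((1 : ℕ) : ℤ) * (2 * k)) = QL.q ^ ((h : ℤ) - 1) * e (2 * (k : ℤ) + 1 - h) := by
      unfold e
      rw [mul_sub, ← zpow_add₀ hq, mul_one]; congr 2; push_cast; ring
    have h4 : 1 - QL.q ^ ((h : ℤ) - 1) * QL.q ^ (((1 : ℕ) : ℤ) * (2 * k + 3)) = e (2 * (k : ℤ) + h + 2) := by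
      unfold e
      rw [← zpow_add₀ hq]; congr 2; push_cast; ring
    have h5 : QL.q ^ (-((h : ℤ) + 1) * ((k + 1 : ℕ) : ℤ)) * QL.q ^ ((n : ℤ) * ((k + 1 : ℕ) : ℤ)) =
        QL.q ^ (-((h : ℤ) + 1) * k) * QL.q ^ ((n : ℤ) * k) * (QL.q ^ 1 * QL.q ^ ((h : ℤ) - 1)) := by
      rw [← zpow_natCast QL.q 1, ← zpow_add₀ hq, ← zpow_add₀ hq, ← zpow_add₀ hq, ← zpow_add₀ hq]; congr 1; rw [hn]; push_cast; ring
    have h6 : (xf h k)⁻¹ = e (2 * (k : ℤ) + 1 - h) / e (2 * (k : ℤ) + h + 2) := by unfold xf; rw [inv_div]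
    rw [h1, h2, h3, h4, mul_inv, h6]
    rw [show QL.q ^ (-((h : ℤ) + 1) * ((k + 1 : ℕ) : ℤ)) * (QL.q ^ ((n : ℤ) * ((k + 1 : ℕ) : ℤ)) * ((XX h k)⁻¹ * (e (2 * (k : ℤ) + 1 - h) / e (2 * (k : ℤ) + h + 2)))) =
      (QL.q ^ (-((h : ℤ) + 1) * ((k + 1 : ℕ) : ℤ)) * QL.q ^ ((n : ℤ) * ((k + 1 : ℕ) : ℤ))) * ((XX h k)⁻¹ * (e (2 * (k : ℤ) + 1 - h) / e (2 * (k : ℤ) + h + 2))) by ring]
    rw [h5, mul_add, pow_add]
    linear_combination (QL.q ^ (1 * 1) * (QL.q ^ ((h : ℤ) - 1) * e (2 * (k : ℤ) + 1 - h) / e (2 * (k : ℤ) + h + 2))) * ih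

lemma hm0 (hn : n = 2 * h + 1) : (2 * ((0 : ℕ) : ℤ) + 1) * n = 2 * (h : ℤ) + 1 := by
  rw [hn]; push_cast; ring

lemma sum_plus (hn : n = 2 * h + 1) (hh : h % 2 = 0) (hh0 : 0 < h) :
    QO (cyclotomic n ℚ) 2 (∑ k ∈ range (h + 1), A h k * WW 1 n (2 * ((0 : ℕ) : ℤ) + 1) k * XX h k) := by
  have hn0 : 0 < n := by omega
  have hq := q_ne
  have hb : ∀ k : ℕ, 1 - QL.q ^ (-(h : ℤ) - 2) * QL.q ^ (((1 : ℕ) : ℤ) * (2 * k + 3)) = e (2 * (k : ℤ) + 1 - h) := by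
    intro k
    unfold e
    rw [← zpow_add₀ hq]; congr 2; push_cast; ring
  have h1 := pair_sum (n := n) (s := 1) one_pos (μ := 0) (m := h) (hm0 hn) (b := QL.q ^ (-(h : ℤ) - 2))
    (fun k => by rw [hb]; exact e_ne (by omega)) (K := h + 1) (by omega)
  have h2 : ∑ k ∈ range (h + 1), A h k * WW 1 n (2 * ((0 : ℕ) : ℤ) + 1) k * XX h k =
      ∑ k ∈ range (h + 1), e (((1 : ℕ) : ℤ) * (4 * (k : ℤ) + 1)) * (QL.q ^ (1 * k) * rr 1 k ^ 3 * WW 1 n (2 * ((0 : ℕ) : ℤ) + 1) k * bb 1 (QL.q ^ (-(h : ℤ) - 2)) k) := by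
    apply sum_congr rfl
    intro k _
    have h3 := bb_plus hh k
    unfold A
    rw [show (((1 : ℕ) : ℤ) * (4 * (k : ℤ) + 1)) = 4 * (k : ℤ) + 1 by push_cast; ring]
    linear_combination -(e (4 * (k : ℤ) + 1) * rr 1 k ^ 3 * WW 1 n (2 * ((0 : ℕ) : ℤ) + 1) k) * h3
  rw [h2, h1]
  have h4 : QO (cyclotomic n ℚ) 1 (e (((1 : ℕ) : ℤ) * (2 * (h : ℤ) + 1))) := e_QO hn0 (by rw [hn]; push_cast; rw [one_mul])
  have h5 : QO (cyclotomic n ℚ) 1 (∏ j ∈ range h, ((1 - QL.q ^ (-(h : ℤ) - 2) * QL.q ^ (((1 : ℕ) : ℤ) * (2 * j + 2 - (2 * h + 1)))) /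
      (1 - QL.q ^ (-(h : ℤ) - 2) * QL.q ^ (((1 : ℕ) : ℤ) * (2 * j + 3))))) := by
    have h6 : ∀ j : ℕ, 1 - QL.q ^ (-(h : ℤ) - 2) * QL.q ^ (((1 : ℕ) : ℤ) * (2 * j + 2 - (2 * h + 1))) = e (2 * (j : ℤ) - 3 * h - 1) := by
      intro j
      unfold e
      rw [← zpow_add₀ hq]; congr 2; push_cast; ring
    rw [← mul_prod_erase (range h) _ (a := h / 2) (mem_range.2 (by omega))]
    refine QO.mul_right ?_ ((Loc _).prod_mem fun j hj => ?_)
    · rw [h6, hb, div_eq_mul_inv]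
      refine QO.mul_right (e_QO hn0 ⟨-1, by omega⟩) (e_inv hn0 (odd_small hn hh (by omega)))
    · rw [h6, hb, div_eq_mul_inv]
      exact (Loc _).mul_mem (e_mem hn0 _) (e_inv hn0 (odd_small hn hh (mem_range.1 (mem_of_mem_erase hj))))
  have h7 : (-1 : RatFunc ℚ) ^ h * QL.q ^ (1 * h ^ 2) ∈ Loc (cyclotomic n ℚ) :=
    (Loc _).mul_mem ((Loc _).pow_mem ((Loc _).neg_mem (Loc _).one_mem) _) ((Loc _).pow_mem (q_mem _) _)
  exact QO.mul (k := 1) (l := 1) (QO.mul_left h7 h4) h5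

lemma sum_minus (hn : n = 2 * h + 1) (hh : h % 2 = 0) (hh0 : 0 < h) :
    ∑ k ∈ range (h + 1), A h k * WW 1 n (2 * ((0 : ℕ) : ℤ) + 1) k * (QL.q ^ ((n : ℤ) * k) * (XX h k)⁻¹) = 0 := by
  have hn0 : 0 < n := by omega
  have hq := q_ne
  have hb : ∀ k : ℕ, 1 - QL.q ^ ((h : ℤ) - 1) * QL.q ^ (((1 : ℕ) : ℤ) * (2 * k + 3)) = e (2 * (k : ℤ) + h + 2) := by
    intro k
    unfold e
    rw [← zpow_add₀ hq]; congr 2; push_cast; ring
  have h1 := pair_sum (n := n) (s := 1) one_pos (μ := 0) (m := h) (hm0 hn) (b := QL.q ^ ((h : ℤ) - 1))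
    (fun k => by rw [hb]; exact e_ne (by omega)) (K := h + 1) (by omega)
  have h2 : ∑ k ∈ range (h + 1), A h k * WW 1 n (2 * ((0 : ℕ) : ℤ) + 1) k * (QL.q ^ ((n : ℤ) * k) * (XX h k)⁻¹) =
      ∑ k ∈ range (h + 1), e (((1 : ℕ) : ℤ) * (4 * (k : ℤ) + 1)) * (QL.q ^ (1 * k) * rr 1 k ^ 3 * WW 1 n (2 * ((0 : ℕ) : ℤ) + 1) k * bb 1 (QL.q ^ ((h : ℤ) - 1)) k) := by
    apply sum_congr rfl
    intro k _
    have h3 := bb_minus hn hh k
    unfold A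
    rw [show (((1 : ℕ) : ℤ) * (4 * (k : ℤ) + 1)) = 4 * (k : ℤ) + 1 by push_cast; ring]
    linear_combination -(e (4 * (k : ℤ) + 1) * rr 1 k ^ 3 * WW 1 n (2 * ((0 : ℕ) : ℤ) + 1) k) * h3
  rw [h2, h1]
  have h6 : 1 - QL.q ^ ((h : ℤ) - 1) * QL.q ^ (((1 : ℕ) : ℤ) * (2 * ((h / 2 : ℕ) : ℤ) + 2 - (2 * h + 1))) = 0 := by
    rw [← zpow_add₀ hq]
    have : (h : ℤ) - 1 + ((1 : ℕ) : ℤ) * (2 * ((h / 2 : ℕ) : ℤ) + 2 - (2 * h + 1)) = 0 := by push_cast; omega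
    rw [this, zpow_zero, sub_self]
  rw [prod_eq_zero (mem_range.2 (show h / 2 < h by omega)) (by rw [h6, zero_div]), mul_zero]

lemma WW_eqm (hn : n = 2 * h + 1) {k : ℕ} (hk : k ≤ h) :
    Eqm (cyclotomic n ℚ) 2 (WW 1 n (2 * ((0 : ℕ) : ℤ) + 1) k) 1 := by
  have h1 := Po_eqm (n := n) (h := h) (s := 1) hn one_pos (Nat.coprime_one_left n) (2 * ((0 : ℕ) : ℤ) + 1) 0 hk
  have h2 := Pe_eqm (n := n) (h := h) (s := 1) hn one_pos (Nat.coprime_one_left n) (2 * ((0 : ℕ) : ℤ) + 1) 0 (l := k) (by omega)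
  rw [mul_zero, zero_add] at h1 h2
  have h3 := h1.div (by norm_num) h2 (by simp [we])
  unfold WW
  convert h3 using 1
  simp [wo, we]

lemma A_mem (hn : n = 2 * h + 1) {k : ℕ} (hk : k ≤ h) : A h k ∈ Loc (cyclotomic n ℚ) := by
  have hn0 : 0 < n := by omega
  have h1 := (rr_mem (s := 1) hn one_pos (Nat.coprime_one_left n) 0 (l := k) (by omega)).1
  rw [mul_zero, zero_add] at h1
  exact (Loc _).mul_mem ((Loc _).mul_mem (e_mem hn0 _) ((Loc _).pow_mem h1 3)) (zmem hn0 _)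

/-- the sum with `(1 + q^{nk})` -/
lemma sum_one (hn : n = 2 * h + 1) (hh : h % 2 = 0) (hh0 : 0 < h) :
    QO (cyclotomic n ℚ) 2 (∑ k ∈ range (h + 1), A h k * (1 + QL.q ^ ((n : ℤ) * k))) := by
  have hn0 : 0 < n := by omega
  have h0 : QO (cyclotomic n ℚ) 2 (∑ k ∈ range (h + 1), A h k * WW 1 n (2 * ((0 : ℕ) : ℤ) + 1) k * (XX h k + QL.q ^ ((n : ℤ) * k) * (XX h k)⁻¹)) := by
    have h1 := sum_plus hn hh hh0
    have h2 := sum_minus hn hh hh0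
    simp only [mul_add, sum_add_distrib]
    rw [h2, add_zero]
    exact h1
  have h1 : Eqm (cyclotomic n ℚ) 2 (∑ k ∈ range (h + 1), A h k * WW 1 n (2 * ((0 : ℕ) : ℤ) + 1) k * (XX h k + QL.q ^ ((n : ℤ) * k) * (XX h k)⁻¹))
      (∑ k ∈ range (h + 1), A h k * (1 + QL.q ^ ((n : ℤ) * k))) := by
    apply Eqm.sum
    intro k hk
    have hk' : k ≤ h := by have := mem_range.1 hk; omega
    have hA := A_mem hn hk'
    have hW := WW_eqm hn hk'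
    have hX := XX_U hn hh hk'
    have hX' := hX.inv one_pos
    have hX0 := XX_ne hh k
    have hz : QO (cyclotomic n ℚ) 1 (e ((n : ℤ) * k)) := e_QO hn0 (dvd_mul_right _ _)
    have hzU : U (cyclotomic n ℚ) 1 (QL.q ^ ((n : ℤ) * k)) := by
      unfold U
      have := hz.neg
      unfold e at this
      rwa [neg_sub] at this
    have hY := hzU.mul hX'
    have h2 := QO.mul hX hY
    have h3 : Eqm (cyclotomic n ℚ) 2 (XX h k + QL.q ^ ((n : ℤ) * k) * (XX h k)⁻¹) (1 + QL.q ^ ((n : ℤ) * k)) := by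
      unfold Eqm
      have := h2.neg
      convert this using 1
      field_simp
      ring
    have h4 := hW.mul h3 (Loc _).one_mem ((Loc _).add_mem (Loc _).one_mem (zmem hn0 _))
    have h5 := h4.mul_left hA
    rw [one_mul, ← mul_assoc] at h5
    exact h5
  have h2 := h0.sub h1
  rwa [sub_sub_cancel] at h2

/-- the reflection of `rr` -/
lemma rr_reflect (hn : n = 2 * h + 1) {k : ℕ} (hk : k ≤ h) :
    U (cyclotomic n ℚ) 1 (rr 1 (h - k) / (rr 1 h * QL.q ^ (k : ℤ) * rr 1 k)) := by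
  have hn0 : 0 < n := by omega
  have hq := q_ne
  have hrr : ∀ k, rr 1 k ≠ 0 := by
    intro k; unfold rr; rw [prod_ne_zero_iff]; intro j _
    exact div_ne_zero (e_ne (by omega)) (e_ne (by omega))
  induction k with
  | zero =>
    have : rr 1 (h - 0) / (rr 1 h * QL.q ^ ((0 : ℕ) : ℤ) * rr 1 0) = 1 := by
      have h0 : rr 1 0 = 1 := by simp [rr]
      rw [h0]
      simp [hrr h]
    rw [this]
    exact U.one 1
  | succ k ih =>
    have ih' := ih (by omega)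
    have hd : ∀ a : ℕ, 0 < a → a < n → ¬ (n : ℤ) ∣ -(a : ℤ) := by
      intro a ha ha' hd
      rw [Int.dvd_neg] at hd
      have := Nat.le_of_dvd ha (by exact_mod_cast hd)
      omega
    have u1 := shift_U hn0 (hd (2 * k + 1) (by omega) (by omega))
    have u2 := shift_U hn0 (hd (2 * k + 2) (by omega) (by omega))
    have h1 := ih'.mul (u1.mul (u2.inv one_pos))
    convert h1 using 1
    have s1 : rr 1 (h - k) = rr 1 (h - (k + 1)) * (e (((1 : ℕ) : ℤ) * (2 * ((h - (k + 1) : ℕ) : ℤ) + 1)) / e (((1 : ℕ) : ℤ) * (2 * ((h - (k + 1) : ℕ) : ℤ) + 2))) := by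
      rw [show h - k = h - (k + 1) + 1 by omega]; unfold rr; rw [prod_range_succ]
    have s2 : rr 1 (k + 1) = rr 1 k * (e (((1 : ℕ) : ℤ) * (2 * (k : ℤ) + 1)) / e (((1 : ℕ) : ℤ) * (2 * (k : ℤ) + 2))) := by
      unfold rr; rw [prod_range_succ]
    have t1 : (((1 : ℕ) : ℤ) * (2 * ((h - (k + 1) : ℕ) : ℤ) + 1)) = -((2 * k + 2 : ℕ) : ℤ) + n := by
      rw [hn]; push_cast [Nat.cast_sub hk]; ring
    have t2 : (((1 : ℕ) : ℤ) * (2 * ((h - (k + 1) : ℕ) : ℤ) + 2)) = -((2 * k + 1 : ℕ) : ℤ) + n := by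
      rw [hn]; push_cast [Nat.cast_sub hk]; ring
    have t3 : (((1 : ℕ) : ℤ) * (2 * (k : ℤ) + 1)) = ((2 * k + 1 : ℕ) : ℤ) := by push_cast; ring
    have t4 : (((1 : ℕ) : ℤ) * (2 * (k : ℤ) + 2)) = ((2 * k + 2 : ℕ) : ℤ) := by push_cast; ring
    rw [t1, t2] at s1
    rw [t3, t4] at s2
    rw [s1, s2, e_neg, e_neg]
    have n1 : e (-((2 * k + 2 : ℕ) : ℤ) + n) ≠ 0 := e_ne (by omega)
    have n2 : e (-((2 * k + 1 : ℕ) : ℤ) + n) ≠ 0 := e_ne (by omega)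
    have n3 : e ((2 * k + 1 : ℕ) : ℤ) ≠ 0 := e_ne (by omega)
    have n4 : e ((2 * k + 2 : ℕ) : ℤ) ≠ 0 := e_ne (by omega)
    have n5 := hrr h
    have n6 := hrr k
    have n7 := hrr (h - (k + 1))
    have n8 : QL.q ^ ((2 * k + 2 : ℕ) : ℤ) = QL.q ^ ((2 * k + 1 : ℕ) : ℤ) * QL.q := by
      rw [← zpow_add_one₀ hq]; congr 1
    have n9 : QL.q ^ ((k + 1 : ℕ) : ℤ) = QL.q ^ (k : ℤ) * QL.q := by
      rw [← zpow_add_one₀ hq]; congr 1
    have n10 : QL.q ^ ((2 * k + 1 : ℕ) : ℤ) ≠ 0 := zpow_ne_zero _ hq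
    have n11 : QL.q ^ (k : ℤ) ≠ 0 := zpow_ne_zero _ hq
    rw [n8, n9]
    generalize e (-((2 * k + 2 : ℕ) : ℤ) + n) = E1 at *
    generalize e (-((2 * k + 1 : ℕ) : ℤ) + n) = E2 at *
    generalize e ((2 * k + 1 : ℕ) : ℤ) = E3 at *
    generalize e ((2 * k + 2 : ℕ) : ℤ) = E4 at *
    generalize rr 1 h = R1 at *
    generalize rr 1 k = R2 at *
    generalize rr 1 (h - (k + 1)) = R3 at *
    generalize QL.q ^ ((2 * k + 1 : ℕ) : ℤ) = Z1 at *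
    generalize QL.q ^ (k : ℤ) = Z2 at *
    field_simp

/-- the middle value -/
lemma rr_mid (hn : n = 2 * h + 1) (hh : h % 2 = 0) :
    U (cyclotomic n ℚ) 1 (rr 1 h / QL.q ^ ((h : ℤ) ^ 2)) := by
  have hn0 : 0 < n := by omega
  have hq := q_ne
  have h1 : rr 1 h = ∏ j ∈ range h, (e ((2 * j + 1 : ℕ) : ℤ) / e (-((2 * j + 1 : ℕ) : ℤ) + n)) := by
    unfold rr
    rw [prod_div_distrib, prod_div_distrib]
    congr 1
    · apply prod_congr rfl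
      intro j _
      congr 1; push_cast; ring
    · rw [← prod_range_reflect]
      apply prod_congr rfl
      intro j hj
      have := mem_range.1 hj
      congr 1
      rw [hn]; push_cast [Nat.cast_sub (show j ≤ h - 1 by omega), Nat.cast_sub (show 1 ≤ h by omega)]; ring
  have h2 : ∀ m : ℕ, QL.q ^ ((m : ℤ) ^ 2) * (-1) ^ m = ∏ j ∈ range m, (-QL.q ^ ((2 * j + 1 : ℕ) : ℤ)) := by
    intro m
    induction m with
    | zero => simp
    | succ m ih =>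
      rw [prod_range_succ, ← ih]
      have : QL.q ^ (((m + 1 : ℕ) : ℤ) ^ 2) = QL.q ^ ((m : ℤ) ^ 2) * QL.q ^ ((2 * m + 1 : ℕ) : ℤ) := by
        rw [← zpow_add₀ hq]; congr 1; push_cast; ring
      rw [this, pow_succ]; ring
  have h3 : QL.q ^ ((h : ℤ) ^ 2) = ∏ j ∈ range h, (-QL.q ^ ((2 * j + 1 : ℕ) : ℤ)) := by
    have := h2 h
    rwa [Even.neg_one_pow (Nat.even_iff.2 hh), mul_one] at this
  rw [h1, h3, ← prod_div_distrib]
  apply U.prod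
  intro j hj
  have hj' := mem_range.1 hj
  have hd : ¬ (n : ℤ) ∣ -((2 * j + 1 : ℕ) : ℤ) := by
    intro hd
    rw [Int.dvd_neg] at hd
    have h9 : n ∣ 2 * j + 1 := by exact_mod_cast hd
    have := Nat.le_of_dvd (by omega) h9
    omega
  have h4 := (shift_U hn0 hd).inv one_pos
  convert h4 using 1
  rw [e_neg]
  have n2 : e (-((2 * j + 1 : ℕ) : ℤ) + n) ≠ 0 := e_ne (by omega)
  have n3 : e ((2 * j + 1 : ℕ) : ℤ) ≠ 0 := e_ne (by omega)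
  have n10 : QL.q ^ ((2 * j + 1 : ℕ) : ℤ) ≠ 0 := zpow_ne_zero _ hq
  field_simp

/-- antisymmetry modulo `Φ_n` -/
lemma A_anti (hn : n = 2 * h + 1) (hh : h % 2 = 0) {k : ℕ} (hk : k ≤ h) :
    Eqm (cyclotomic n ℚ) 1 (A h (h - k)) (-A h k) := by
  have hn0 : 0 < n := by omega
  have hq := q_ne
  have hrr : ∀ k, rr 1 k ≠ 0 := by
    intro k; unfold rr; rw [prod_ne_zero_iff]; intro j _
    exact div_ne_zero (e_ne (by omega)) (e_ne (by omega))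
  have hrm := (rr_mem (s := 1) hn one_pos (Nat.coprime_one_left n) 0 (l := k) (by omega)).1
  rw [mul_zero, zero_add] at hrm
  -- the quotient
  have u0 := (rr_reflect hn hk).mul (rr_mid hn hh)
  have u1 : U (cyclotomic n ℚ) 1 (QL.q ^ ((n : ℤ) * (h - 1 + k))) := by
    have := (e_QO hn0 (dvd_mul_right (n : ℤ) (h - 1 + k))).neg
    unfold e at this
    rw [neg_sub] at this
    exact this
  have u2 := (u0.mul (u0.mul u0)).mul u1
  have e1 : Eqm (cyclotomic n ℚ) 1 (e (4 * ((h - k : ℕ) : ℤ) + 1)) (e (-(4 * (k : ℤ) + 1))) := by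
    have h1 := (e_shift hn0 (-(4 * (k : ℤ) + 1) + n)).trans (e_shift hn0 (-(4 * (k : ℤ) + 1)))
    convert h1 using 2
    rw [hn]; push_cast [Nat.cast_sub hk]; ring
  have e2 : Eqm (cyclotomic n ℚ) 1 (e (4 * ((h - k : ℕ) : ℤ) + 1) * (rr 1 (h - k) ^ 3 * QL.q ^ (-((h : ℤ) + 1) * ((h - k : ℕ) : ℤ))))
      (e (-(4 * (k : ℤ) + 1)) * (QL.q ^ (-((h : ℤ) + 1) * k + (4 * (k : ℤ) + 1)) * rr 1 k ^ 3)) := by
    refine e1.mul ?_ (e_mem hn0 _) ((Loc _).mul_mem (zmem hn0 _) ((Loc _).pow_mem hrm 3))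
    have h3 := Eqm.mul_left (c := QL.q ^ (-((h : ℤ) + 1) * k + (4 * (k : ℤ) + 1)) * rr 1 k ^ 3)
      ((Loc _).mul_mem (zmem hn0 _) ((Loc _).pow_mem hrm 3)) (U_iff.1 u2)
    rw [mul_one] at h3
    convert h3 using 1
    have n5 := hrr h
    have n6 := hrr k
    have n7 := hrr (h - k)
    have z1 : QL.q ^ (-((h : ℤ) + 1) * ((h - k : ℕ) : ℤ)) = QL.q ^ (-((h : ℤ) + 1) * k + (4 * (k : ℤ) + 1)) * QL.q ^ ((n : ℤ) * (h - 1 + k)) *
        (QL.q ^ (-(k : ℤ))) ^ 3 * (QL.q ^ (-((h : ℤ) ^ 2))) ^ 3 := by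
      rw [← zpow_natCast (QL.q ^ (-(k : ℤ))) 3, ← zpow_natCast (QL.q ^ (-((h : ℤ) ^ 2))) 3, ← zpow_mul, ← zpow_mul,
        ← zpow_add₀ hq, ← zpow_add₀ hq, ← zpow_add₀ hq]
      congr 1
      rw [hn]; push_cast [Nat.cast_sub hk]; ring
    rw [z1, zpow_neg, zpow_neg]
    have n1 : QL.q ^ (k : ℤ) ≠ 0 := zpow_ne_zero _ hq
    have n2 : QL.q ^ ((h : ℤ) ^ 2) ≠ 0 := zpow_ne_zero _ hq
    generalize QL.q ^ (k : ℤ) = Z1 at *
    generalize QL.q ^ ((h : ℤ) ^ 2) = Z2 at *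
    generalize QL.q ^ (-((h : ℤ) + 1) * k + (4 * (k : ℤ) + 1)) = Z3 at *
    generalize QL.q ^ ((n : ℤ) * (h - 1 + k)) = Z4 at *
    generalize rr 1 h = R1 at *
    generalize rr 1 k = R2 at *
    generalize rr 1 (h - k) = R3 at *
    field_simp
  convert e2 using 1
  · unfold A; ring
  · unfold A
    have n1 : QL.q ^ (4 * (k : ℤ) + 1) ≠ 0 := zpow_ne_zero _ hq
    rw [e_neg, zpow_add₀ hq (-((h : ℤ) + 1) * k)]
    generalize QL.q ^ (4 * (k : ℤ) + 1) = Z1 at *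
    field_simp

lemma half_QO {x : RatFunc ℚ} {P : ℚ[X]} {k : ℕ} (h : QO P k (x + x)) : QO P k x := by
  have h1 := QO.mul_left (rat_mem P (1 / 2)) h
  convert h1 using 1
  push_cast
  ring

lemma sum_anti (hn : n = 2 * h + 1) (hh : h % 2 = 0) :
    QO (cyclotomic n ℚ) 1 (∑ k ∈ range (h + 1), A h k * (k * (h - k))) := by
  have h1 : Eqm (cyclotomic n ℚ) 1 (∑ k ∈ range (h + 1), A h k * (k * (h - k))) (∑ k ∈ range (h + 1), -(A h k * (k * (h - k)))) := by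
    rw [← sum_range_reflect (fun k => A h k * ((k : RatFunc ℚ) * (h - k))) (h + 1)]
    apply Eqm.sum
    intro k hk
    have hk' : k ≤ h := by have := mem_range.1 hk; omega
    have h2 := Eqm.mul_left (c := (k : RatFunc ℚ) * (h - k)) ((Loc _).mul_mem (nat_mem _ _) ((Loc _).sub_mem (nat_mem _ _) (nat_mem _ _))) (A_anti hn hh hk')
    rw [show h + 1 - 1 - k = h - k by omega]
    convert h2 using 1
    · push_cast [Nat.cast_sub hk']; ring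
    · ring
  rw [sum_neg_distrib] at h1
  unfold Eqm at h1
  rw [sub_neg_eq_add] at h1
  exact half_QO h1

/-- the exponents of `q^n` -/
def tt (h k : ℕ) : ℤ := (k : ℤ) * (h + 1 - k) / 2

lemma tt_eq (hh : h % 2 = 0) (k : ℕ) : 2 * tt h k = (k : ℤ) * (h + 1 - k) := by
  unfold tt
  apply Int.mul_ediv_cancel'
  obtain ⟨g, rfl⟩ : ∃ g, h = 2 * g := ⟨h / 2, by omega⟩
  rcases Nat.even_or_odd' k with ⟨c, rfl | rfl⟩
  · exact ⟨c * (2 * g + 1 - 2 * c), by push_cast; ring⟩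
  · exact ⟨(2 * c + 1) * (g - c), by push_cast; ring⟩

lemma ex_eq (hn : n = 2 * h + 1) (hh : h % 2 = 0) (k : ℕ) : ex n k = -((h : ℤ) + 1) * k + n * tt h k := by
  unfold ex
  apply Int.ediv_eq_of_eq_mul_right (by norm_num)
  have := tt_eq hh k
  rw [hn]
  push_cast
  linear_combination (-2 * (2 * (h : ℤ) + 1)) * this

lemma S_mul (hn : n = 2 * h + 1) (hh : h % 2 = 0) :
    S n * (1 - q) = ∑ k ∈ range (h + 1), A h k * QL.q ^ ((n : ℤ) * tt h k) := by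
  unfold S
  rw [sum_mul, show (n - 1) / 2 = h by omega]
  apply sum_congr rfl
  intro k _
  rw [rr_eq, ex_eq hn hh, q_def, zpow_add₀ q_ne]
  have h1 := qint_mul (4 * k + 1)
  rw [q_def] at h1
  have h2 : e (4 * (k : ℤ) + 1) = 1 - QL.q ^ (4 * k + 1) := by
    rw [← e_nat]; congr 1
  unfold A
  rw [h2]
  linear_combination (rr 1 k ^ 3 * QL.q ^ (-((h : ℤ) + 1) * k) * QL.q ^ ((n : ℤ) * tt h k)) * h1

theorem main (hn : n = 2 * h + 1) (hh : h % 2 = 0) (hh0 : 0 < h) : QO (cyclotomic n ℚ) 2 (S n) := by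
  have hn0 : 0 < n := by omega
  have hq := q_ne
  obtain ⟨hx, hx0, hx1, hxi⟩ := x_props (n := n) (s := 1) hn0 one_pos
  rw [one_mul] at hx hx0 hx1 hxi
  have h1 := sum_one hn hh hh0
  have h2 := QO.mul hx (sum_anti hn hh)
  have h3 : Eqm (cyclotomic n ℚ) 2 (∑ k ∈ range (h + 1), A h k * (2 * QL.q ^ ((n : ℤ) * tt h k) - 1 - QL.q ^ ((n : ℤ) * k)))
      ((QL.q ^ n - 1) * ∑ k ∈ range (h + 1), A h k * (k * (h - k))) := by
    rw [mul_sum]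
    apply Eqm.sum
    intro k hk
    have hk' : k ≤ h := by have := mem_range.1 hk; omega
    have h4 := zp hx hx0 hxi (tt h k)
    have h5 := zp hx hx0 hxi k
    rw [← zpow_natCast QL.q n, ← zpow_mul] at h4 h5
    have h6 := ((Eqm.mul_left (rat_mem _ 2) h4).sub (Eqm.refl (1 : RatFunc ℚ))).sub h5
    have h7 := Eqm.mul_left (A_mem hn hk') h6
    have h8 : (2 : RatFunc ℚ) * (tt h k : RatFunc ℚ) = (k : RatFunc ℚ) * (h + 1 - k) := by exact_mod_cast tt_eq hh k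
    convert h7 using 1
    · push_cast; ring
    · rw [← zpow_natCast QL.q n]
      push_cast
      linear_combination (-(A h k * (QL.q ^ (n : ℤ) - 1))) * h8
  have h4 : QO (cyclotomic n ℚ) 2 (∑ k ∈ range (h + 1), A h k * (2 * QL.q ^ ((n : ℤ) * tt h k) - 1 - QL.q ^ ((n : ℤ) * k))) := by
    have := QO.add h3 h2
    rwa [sub_add_cancel] at this
  have h5 := h1.add h4
  have h6 : QO (cyclotomic n ℚ) 2 (S n * (1 - q)) := by
    rw [S_mul hn hh]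
    apply half_QO
    convert h5 using 1
    rw [← sum_add_distrib, ← sum_add_distrib]
    apply sum_congr rfl
    intro k _
    ring
  have h7 : (1 - q)⁻¹ ∈ Loc (cyclotomic n ℚ) := by
    have := inv_one_sub_mem (N := n) (b := 1) (by
      intro hd
      have := Nat.le_of_dvd one_pos hd
      omega)
    rwa [pow_one] at this
  have h8 := QO.mul_right h6 h7
  rwa [mul_assoc, mul_inv_cancel₀ one_sub_q, mul_one] at h8

lemma zeroSq_of_QO {Φ : ℚ[X]} (hΦ : ¬ IsUnit Φ) {F : RatFunc ℚ} (h : QO Φ 2 F) : ZeroSq Φ F := by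
  obtain ⟨y, ⟨a, b, h1, h2⟩, h3⟩ := h
  refine ⟨Φ ^ 2 * a, b, h1, dvd_mul_right _ _, ?_⟩
  have hb : b ≠ 0 := by
    rintro rfl
    exact hΦ (isCoprime_zero_left.1 h1)
  rw [eq_div_iff (al_ne hb), h3, map_mul, map_pow, mul_assoc, h2]

/-- **Q1 holds for all `n > 1`, `n ≡ 1 (mod 4)`, and fails for `n = 1`.** -/
theorem result : (∀ n : ℕ, 1 < n → n % 4 = 1 → ZeroSq (cyclotomic n ℚ) (S n)) ∧ ¬ ZeroSq (cyclotomic 1 ℚ) (S 1) := by
  refine ⟨fun n hn1 hn4 => ?_, ?_⟩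
  · obtain ⟨h, hn⟩ : ∃ h, n = 2 * h + 1 := ⟨n / 2, by omega⟩
    exact zeroSq_of_QO (cyclotomic.irreducible_rat (by omega)).not_isUnit (main hn (by omega) (by omega))
  · rintro ⟨U, V, hV, hU, hE⟩
    rw [cyclotomic_one] at hV hU
    have hV0 : V ≠ 0 := by
      rintro rfl
      have h1 := isCoprime_zero_left.1 hV
      have h4 := natDegree_eq_zero_of_isUnit h1
      have h5 : (X - 1 : ℚ[X]).natDegree = 1 := by
        have := natDegree_X_sub_C (1 : ℚ); rwa [C_1] at this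
      omega
    have hS : S 1 = 1 := by
      unfold S qint qp ex
      simp
    rw [hS, eq_div_iff (al_ne hV0), one_mul] at hE
    have h1 : V = U := al_inj hE
    rw [← h1] at hU
    have h2 : IsUnit (X - 1 : ℚ[X]) := (hV.symm.isUnit_of_dvd' dvd_rfl ((dvd_pow_self _ (by norm_num)).trans hU))
    have h4 := natDegree_eq_zero_of_isUnit h2
    have h5 : (X - 1 : ℚ[X]).natDegree = 1 := by
      have := natDegree_X_sub_C (1 : ℚ); rwa [C_1] at this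
    omega

end

end Pool.Agent.Results.MP_b125a4_nt.Truncated
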